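import Pool.Agent.ABCP.Stmts

set_option autoImplicit false

namespace Pool.Agent.ABCP.H1

open Matrix
open Pool.Agent.ABC3 (St sdeg xc mu mu_def xc_comm xc_sq mu_comm mu_deg HasDeg HomV kr)

theorem sdeg_nonneg {ι : Type} [Fintype ι] [DecidableEq ι] (s : St ι) : 0 ≤ sdeg s := by
  unfold sdeg
  exact Int.natCast_nonneg _

theorem ind (hSTR : STRStmt) (hSTA : STAStmt) (hLO1 : LO1Stmt) (hANN : ANNStmt) : INDStmt := by
  intro p hp K _ _ _ n
  induction n using Nat.strong_induction_on with
  | _ n ih =>
  intro Q _ _ _ ι _ _ ev hev hpos hlt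
  have hp2 : (2 : ℤ) ≤ (p : ℤ) := by exact_mod_cast hp.out.two_le
  rcases Nat.lt_or_ge (Module.finrank K Q) 2 with h1 | h2
  · exact hLO1 p K Q ι ev hev (by omega)
  intro e he
  have hbelow : GoodBelow p K (Module.finrank K Q) := ih _ hlt
  have key : ∀ m : ℕ, ∀ d : ℤ, d < m → 2 * d < thr p (Fintype.card ι) (Module.finrank K Q) →
      ∀ v : St ι → K, HomV (TSys p ev).deg d v → e.mulVec v = v → v = 0 := by
    intro m
    induction m with
    | zero =>
      intro d hd _ v hv _
      funext s
      by_contra hs
      have h3 := hv s hs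
      have h4 := sdeg_nonneg s
      rw [TSys_deg] at h3
      rw [h3] at h4
      push_cast at hd
      omega
    | succ m ihm =>
      intro d hd hdt
      have hlow : ∀ d' : ℤ, d' < d → ∀ v : St ι → K, HomV (TSys p ev).deg d' v → e.mulVec v = v → v = 0 := by
        intro d' hd' v hv hev'
        refine ihm d' ?_ ?_ v hv hev'
        · push_cast at hd; omega
        · omega
      rcases isEmpty_or_nonempty ι with hι | hι
      · intro v hv hve
        funext s
        by_contra hs
        have h3 := hv s hs
        have h4 := sdeg_nonneg s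
        rw [TSys_deg] at h3
        rw [h3] at h4
        have h5 : thr p (Fintype.card ι) (Module.finrank K Q) ≤ 0 := by
          unfold thr
          have h6 : Fintype.card ι = 0 := Fintype.card_eq_zero
          rw [h6]
          have h7 : (2 : ℤ) ≤ (Module.finrank K Q : ℤ) := by exact_mod_cast h2
          push_cast
          nlinarith
        omega
      · refine hSTA p K Q (St ι) (TSys p ev) ι ev e d he.1 he.2.1 h2 hlow ?_ ?_
        · intro D hD P hP hP'
          refine hSTR p K Q ι ev hev hbelow e he P hP hP' D ?_
          omega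
        · intro v hv hve
          exact hANN p K Q (St ι) (TSys p ev) ι ev hev hpos e he d v hv hve
  intro d hd v hv hve
  refine key (d.toNat + 1) d ?_ hd v hv hve
  push_cast
  omega

end Pool.Agent.ABCP.H1
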